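import Pool.Agent.T9h53.AP.QU

/-! # The L-functions of the primitive Dirichlet characters, the zeta function included -/

set_option autoImplicit false
set_option linter.unusedSectionVars false

open Complex Filter Topology Set MeasureTheory

namespace Pool.Agent.T9h53.AP

open Pool.Agent.T9h53.SZ Pool.Agent.T9h53.SG
open Pool.Agent.T9h27.D

/-- the norm of a natural number -/
noncomputable abbrev NId : ℕ →*₀ ℕ := MonoidWithZeroHom.id ℕ

lemma ns_nat : NS NId 1 := by
  refine ⟨le_rfl, ?_, ?_⟩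
  · intro p hp
    exact ⟨p, 1, hp.nat_prime, le_rfl, le_rfl, by simp⟩
  · intro q hq
    have h : {p : ℕ | Prime p ∧ q ∣ NId p} = {q} := by
      ext p
      simp only [mem_setOf_eq, mem_singleton_iff, MonoidWithZeroHom.id_apply]
      constructor
      · rintro ⟨h1, h2⟩
        exact ((Nat.prime_dvd_prime_iff_eq hq h1.nat_prime).mp h2).symm
      · rintro rfl
        exact ⟨hq.prime, dvd_rfl⟩
    rw [h]
    exact ⟨Set.finite_singleton q, by simp⟩

variable {q : ℕ} [NeZero q]

/-- the values of a Dirichlet character on the natural numbers, `0` at `0` -/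
noncomputable def psi (χ : DirichletCharacter ℂ q) : ℕ →*₀ ℂ where
  toFun n := if n = 0 then 0 else χ (n : ZMod q)
  map_zero' := by simp
  map_one' := by simp
  map_mul' a b := by
    by_cases ha : a = 0
    · simp [ha]
    · by_cases hb : b = 0
      · simp [hb]
      · simp [ha, hb]

lemma psi_of {χ : DirichletCharacter ℂ q} {n : ℕ} (hn : n ≠ 0) : psi χ n = χ (n : ZMod q) := by
  show (if n = 0 then 0 else χ (n : ZMod q)) = _
  rw [if_neg hn]

lemma psi_le (χ : DirichletCharacter ℂ q) (n : ℕ) : ‖psi χ n‖ ≤ 1 := by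
  by_cases hn : n = 0
  · rw [hn, map_zero, norm_zero]
    exact zero_le_one
  · rw [psi_of hn]
    exact DirichletCharacter.norm_le_one χ _

lemma psi_ser (χ : DirichletCharacter ℂ q) {s : ℂ} (hs : 1 < s.re) :
    DirichletCharacter.LFunction χ s = LA NId (psi χ) s := by
  rw [DirichletCharacter.LFunction_eq_LSeries _ hs, LSeries]
  unfold LA
  refine tsum_congr fun n => ?_
  by_cases hn : n = 0
  · rw [hn, LSeries.term_zero, map_zero, zero_mul]
  · rw [LSeries.term_of_ne_zero hn, psi_of hn, Complex.cpow_neg, div_eq_mul_inv]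
    simp

/-- the parity -/
noncomputable def par (χ : DirichletCharacter ℂ q) : ℕ := by
  classical
  exact if χ.Even then 0 else 1

lemma par_eq (χ : DirichletCharacter ℂ q) : ((par χ : ℕ) : ℂ) = H370.DL.aa χ := by
  unfold par H370.DL.aa
  split_ifs <;> simp

lemma par_le (χ : DirichletCharacter ℂ q) : par χ ≤ 1 := by
  unfold par
  split_ifs <;> simp

lemma XF_eq (χ : DirichletCharacter ℂ q) (s : ℂ) :
    XF (ι := Unit) (q : ℝ) (fun _ => par χ) (DirichletCharacter.rootNumber χ) s =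
      H370.DL.XX χ s := by
  unfold XF H370.DL.XX
  show DirichletCharacter.rootNumber χ *
      ((((q : ℝ) : ℂ)) ^ ((1 - s) / 2) * ∏ _i : Unit, Gammaℝ (1 - s + ((par χ : ℕ) : ℂ))) /
      ((((q : ℝ) : ℂ)) ^ (s / 2) * ∏ _i : Unit, Gammaℝ (s + ((par χ : ℕ) : ℂ))) = _
  rw [par_eq, Finset.prod_const, Finset.prod_const]
  simp only [Finset.card_univ, Fintype.card_unit, pow_one]
  have hq : ((q : ℝ) : ℂ) ≠ 0 := by
    have : (q : ℝ) ≠ 0 := by exact_mod_cast NeZero.ne q
    exact_mod_cast this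
  have hqc : (((q : ℝ) : ℂ)) = (q : ℂ) := by push_cast; rfl
  have e1 : (((q : ℝ) : ℂ)) ^ ((1 - s) / 2) = (q : ℂ) ^ (1 / 2 - s) * (((q : ℝ) : ℂ)) ^ (s / 2) := by
    rw [hqc] at hq ⊢
    rw [← Complex.cpow_add _ _ hq]
    congr 1
    ring
  have h3 : (((q : ℝ) : ℂ)) ^ (s / 2) ≠ 0 := by
    rw [Ne, cpow_eq_zero_iff]
    exact fun h => hq h.1
  rw [e1]
  by_cases hg : Gammaℝ (s + H370.DL.aa χ) = 0
  · rw [hg]
    simp
  · field_simp

lemma root_norm {χ : DirichletCharacter ℂ q} (hχ : χ.IsPrimitive) :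
    ‖DirichletCharacter.rootNumber χ‖ = 1 := by
  have him : ((2 : ℂ) + I).im ≠ 0 := by simp
  have hL : DirichletCharacter.LFunction χ (2 + I) ≠ 0 := H370.DL.L_nzr (by simp) him
  have e1 := H370.DL.func_eq hχ him
  have him2 : (1 - (starRingEnd ℂ) ((2 : ℂ) + I)).im ≠ 0 := by simp
  have e2 := H370.DL.func_eq hχ him2
  have e3 : H370.DL.refl (DirichletCharacter.LFunction χ) (1 - (starRingEnd ℂ) ((2 : ℂ) + I)) =
      (starRingEnd ℂ) (DirichletCharacter.LFunction χ (2 + I)) := by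
    unfold H370.DL.refl
    rw [H370.DL.one_sub_conj_invol]
  have e4 : H370.DL.XX χ (2 + I) * (starRingEnd ℂ)
      (H370.DL.XX χ (1 - (starRingEnd ℂ) ((2 : ℂ) + I))) = 1 := by
    have h5 : DirichletCharacter.LFunction χ (2 + I) = H370.DL.XX χ (2 + I) *
        (starRingEnd ℂ) (H370.DL.XX χ (1 - (starRingEnd ℂ) ((2 : ℂ) + I))) *
        DirichletCharacter.LFunction χ (2 + I) := by
      conv_lhs => rw [e1]
      unfold H370.DL.refl
      rw [e2, e3, map_mul, Complex.conj_conj]
      ring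
    have h6 : (H370.DL.XX χ (2 + I) *
        (starRingEnd ℂ) (H370.DL.XX χ (1 - (starRingEnd ℂ) ((2 : ℂ) + I))) - 1) *
        DirichletCharacter.LFunction χ (2 + I) = 0 := by
      linear_combination -h5
    rcases mul_eq_zero.mp h6 with h7 | h7
    · linear_combination h7
    · exact absurd h7 hL
  -- the same for the factor
  rw [← XF_eq, ← XF_eq] at e4
  set w := DirichletCharacter.rootNumber χ with hw
  set e : Unit → ℕ := fun _ => par χ with he
  have hR : (0 : ℝ) < q := by exact_mod_cast Nat.pos_of_ne_zero (NeZero.ne q)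
  unfold XF at e4
  rw [map_div₀, map_mul, GR_conj hR, GR_conj hR] at e4
  have s1 : (starRingEnd ℂ) (1 - (1 - (starRingEnd ℂ) ((2 : ℂ) + I))) = 2 + I := by simp
  have s2 : (starRingEnd ℂ) (1 - (starRingEnd ℂ) ((2 : ℂ) + I)) = 1 - (2 + I) := by simp
  rw [s1, s2] at e4
  have g1 : GR (q : ℝ) e (2 + I) ≠ 0 := GR_ne_zero hR e him
  have g2 : GR (q : ℝ) e (1 - (2 + I)) ≠ 0 := GR_ne_zero hR e (by simp)
  have e5 : w * (starRingEnd ℂ) w = 1 := by
    have : w * GR (q : ℝ) e (1 - (2 + I)) / GR (q : ℝ) e (2 + I) *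
        ((starRingEnd ℂ) w * GR (q : ℝ) e (2 + I) / GR (q : ℝ) e (1 - (2 + I))) =
        w * (starRingEnd ℂ) w := by
      field_simp
    rw [← this]
    exact e4
  rw [Complex.mul_conj] at e5
  have e6 : Complex.normSq w = 1 := by exact_mod_cast e5
  rw [Complex.normSq_eq_norm_sq] at e6
  have h7 : 0 ≤ ‖w‖ := norm_nonneg w
  nlinarith

theorem hu_dir {χ : DirichletCharacter ℂ q} (hχ : χ.IsPrimitive) :
    HU (ι := Unit) NId (psi χ) (DirichletCharacter.LFunction χ) (q : ℝ) (fun _ => par χ)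
      (DirichletCharacter.rootNumber χ) := by
  refine ⟨?_, psi_le χ, ?_, ?_, fun _ => par_le χ, root_norm hχ, ?_, ?_, ?_⟩
  · intro s hs
    exact H370.DL.analyticAt_L (H370.DL.ne_one_of_im hs)
  · intro s hs
    exact psi_ser χ (by linarith)
  · exact_mod_cast Nat.pos_of_ne_zero (NeZero.ne q)
  · intro s hs
    rw [XF_eq]
    exact H370.DL.func_eq hχ hs
  · obtain ⟨C, A, hC, hA, h⟩ := L_growth_all hχ
    exact ⟨C, A, hC, hA, fun s h1 h2 => h s (by linarith) h2⟩
  · intro s h1 h2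
    exact H370.DL.L_nzr h1 h2

end Pool.Agent.T9h53.AP
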