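import Pool.Agent.T9h53.SG.FinG

/-! # L-functions which may have a pole on the real axis -/

set_option autoImplicit false
set_option linter.unusedSectionVars false

open Complex Filter Topology Set MeasureTheory

namespace Pool.Agent.T9h53.AP

open Pool.Agent.T9h53.SZ Pool.Agent.T9h53.SG
open Pool.Agent.T9h27.D
open Pool.Agent.N786.D (mob)

/-- the analytic data of an L-function, away from the real axis -/
structure HU {M : Type} [CommMonoidWithZero M] (N : M →*₀ ℕ) (χ : M →*₀ ℂ) (F : ℂ → ℂ)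
    {ι : Type} [Fintype ι] (R : ℝ) (e : ι → ℕ) (w : ℂ) : Prop where
  an : ∀ s : ℂ, s.im ≠ 0 → AnalyticAt ℂ F s
  le1 : ∀ a, ‖χ a‖ ≤ 1
  ser : ∀ s : ℂ, 3 / 2 ≤ s.re → F s = LA N χ s
  hR : 0 < R
  he : ∀ i, e i ≤ 1
  hw : ‖w‖ = 1
  fe : ∀ s : ℂ, s.im ≠ 0 → F s = XF R e w s * (starRingEnd ℂ) (F (1 - (starRingEnd ℂ) s))
  gr : ∃ C A : ℝ, 0 < C ∧ 0 < A ∧ ∀ s : ℂ, 1 / 2 ≤ s.re → 1 ≤ s.im → ‖F s‖ ≤ C * s.im ^ A
  nz : ∀ s : ℂ, 1 ≤ s.re → s.im ≠ 0 → F s ≠ 0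

lemma HU_of_HL {M : Type} [CommMonoidWithZero M] {N : M →*₀ ℕ} {χ : M →*₀ ℂ} {F : ℂ → ℂ}
    {ι : Type} [Fintype ι] {R : ℝ} {e : ι → ℕ} {w : ℂ} (h : HL N χ F R e w) : HU N χ F R e w :=
  ⟨fun s _ => h.diff.analyticAt s, h.le1, h.ser, h.hR, h.he, h.hw, h.fe, h.gr,
    fun s hs _ => h.nz s hs⟩

section

variable {M : Type} [CommMonoidWithZero M] {N : M →*₀ ℕ} {χ : M →*₀ ℂ} {F : ℂ → ℂ}
    {ι : Type} [Fintype ι] {R : ℝ} {e : ι → ℕ} {w : ℂ}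

lemma HU.analytic (h : HU N χ F R e w) {z : ℂ} (hz : 0 < z.im) :
    AnalyticAt ℂ (fun w => F (1 / 2 + w)) z :=
  AnalyticAt.fun_comp (f := fun w : ℂ => 1 / 2 + w)
    (h.an _ (by simpa using hz.ne')) (by fun_prop)

lemma HU.order_ne_top (h : HU N χ F R e w) {z : ℂ} (hz : 0 < z.im) :
    analyticOrderAt (fun w => F (1 / 2 + w)) z ≠ ⊤ := by
  have hU : IsPreconnected {s : ℂ | 0 < s.im} := (convex_halfSpace_im_gt 0).isPreconnected
  refine H370.Loc.order_ne_top hU (fun w hw => h.analytic hw) (c := ⟨3 / 2, z.im⟩)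
    (by simpa using hz) ?_ hz
  apply h.nz
  · norm_num
  · simpa using hz.ne'

lemma HU.isolated (h : HU N χ F R e w) {z : ℂ} (hz : 0 < z.im) :
    ∀ᶠ w in 𝓝 z, w ≠ z → F (1 / 2 + w) ≠ 0 := by
  obtain ⟨φ, -, -, h3⟩ := local_quot (h.analytic hz) (h.analytic hz) (h.order_ne_top hz) le_rfl
  exact h3

lemma HU.strip (h : HU N χ F R e w) {ρ : ℂ} (h0 : F ρ = 0) (him : ρ.im ≠ 0) :
    0 < ρ.re ∧ ρ.re < 1 := by
  constructor
  · by_contra hc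
    push Not at hc
    have h1 := h.fe (1 - (starRingEnd ℂ) ρ) (by simpa using him)
    have e1 : 1 - (starRingEnd ℂ) (1 - (starRingEnd ℂ) ρ) = ρ := by simp
    rw [e1, h0, map_zero, mul_zero] at h1
    exact h.nz _ (by simp; exact hc) (by simpa using him) h1
  · by_contra hc
    push Not at hc
    exact h.nz _ hc him h0

lemma HU.finite (h : HU N χ F R e w) {T : ℝ} (hT : 0 < T) :
    {ρ : ℂ | F ρ = 0 ∧ T < ρ.im ∧ ρ.im ≤ 2 * T}.Finite := by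
  have hU : IsPreconnected {s : ℂ | 0 < s.im} := (convex_halfSpace_im_gt 0).isPreconnected
  have han : AnalyticOnNhd ℂ F {s : ℂ | 0 < s.im} := fun s hs => h.an s (ne_of_gt hs)
  have hK : IsCompact (Icc (0 : ℝ) 1 ×ℂ Icc T (2 * T)) := isCompact_Icc.reProdIm isCompact_Icc
  by_contra hinf
  have hinf' : {ρ : ℂ | F ρ = 0 ∧ T < ρ.im ∧ ρ.im ≤ 2 * T}.Infinite := hinf
  obtain ⟨z, hzK, hz⟩ := hinf'.exists_accPt_of_subset_isCompact hK (by
    rintro ρ ⟨h0, h1, h2⟩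
    have h3 := h.strip h0 (by linarith)
    exact ⟨⟨h3.1.le, h3.2.le⟩, ⟨h1.le, h2⟩⟩)
  have hzim : 0 < z.im := lt_of_lt_of_le hT hzK.2.1
  have hord : analyticOrderAt F z ≠ ⊤ := by
    refine H370.Loc.order_ne_top hU han (c := ⟨2, 1⟩) (by simp) ?_ hzim
    exact h.nz _ (by simp) (by simp)
  have hiso : ∀ᶠ w in 𝓝[≠] z, F w ≠ 0 := by
    rcases (h.an z hzim.ne').eventually_eq_zero_or_eventually_ne_zero with h1 | h1
    · exact absurd (analyticOrderAt_eq_top.mpr h1) hord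
    · exact h1
  rw [accPt_iff_frequently_nhdsNE] at hz
  obtain ⟨w, hw1, hw2⟩ := (hz.and_eventually hiso).exists
  exact hw2 hw1.1

end

end Pool.Agent.T9h53.AP
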