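import Pool.Agent.T9h53.AP.BoxU

/-! # The quotient of two L-functions which may have a pole on the real axis -/

set_option autoImplicit false
set_option linter.unusedSectionVars false

open Complex Filter Topology Set MeasureTheory

namespace Pool.Agent.T9h53.AP

open Pool.Agent.T9h53.SZ Pool.Agent.T9h53.SG
open Pool.Agent.T9h27.D

variable {M₁ : Type} [CommMonoidWithZero M₁] {N₁ : M₁ →*₀ ℕ}
  {M₂ : Type} [CommMonoidWithZero M₂] {N₂ : M₂ →*₀ ℕ}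
  {ι₁ ι₂ : Type} [Fintype ι₁] [Fintype ι₂]
  {χ₁ : M₁ →*₀ ℂ} {χ₂ : M₂ →*₀ ℂ} {F₁ F₂ : ℂ → ℂ} {R₁ R₂ : ℝ} {e₁ : ι₁ → ℕ} {e₂ : ι₂ → ℕ}
  {w₁ w₂ : ℂ}

lemma im1 (β : ℝ) (z : ℂ) : ((1 / 2 : ℂ) + β * z).im = β * z.im := by simp

lemma im2 (α δ : ℝ) (z : ℂ) : ((1 / 2 : ℂ) + δ * I + α * z).im = δ + α * z.im := by simp

lemma an1 (h₁ : HU N₁ χ₁ F₁ R₁ e₁ w₁) {β : ℝ} {z : ℂ} (hz : 0 < β * z.im) :
    AnalyticAt ℂ (fun w => F₁ (1 / 2 + β * w)) z :=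
  AnalyticAt.fun_comp (f := fun w : ℂ => 1 / 2 + β * w)
    (h₁.an _ (by rw [im1]; exact hz.ne')) (by fun_prop)

lemma an2 (h₂ : HU N₂ χ₂ F₂ R₂ e₂ w₂) {α δ : ℝ} {z : ℂ} (hz : 0 < δ + α * z.im) :
    AnalyticAt ℂ (fun w => F₂ (1 / 2 + δ * I + α * w)) z :=
  AnalyticAt.fun_comp (f := fun w : ℂ => 1 / 2 + δ * I + α * w)
    (h₂.an _ (by rw [im2]; exact hz.ne')) (by fun_prop)

lemma ont1 (h₁ : HU N₁ χ₁ F₁ R₁ e₁ w₁) {β : ℝ} (hβ : 0 < β) {z : ℂ} (hz : 0 < z.im) :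
    analyticOrderAt (fun w => F₁ (1 / 2 + β * w)) z ≠ ⊤ := by
  have hU : IsPreconnected {s : ℂ | 0 < s.im} := (convex_halfSpace_im_gt 0).isPreconnected
  refine H370.Loc.order_ne_top hU (fun w hw => an1 h₁ (mul_pos hβ hw)) (c := ⟨β⁻¹, z.im⟩)
    (by simpa using hz) ?_ hz
  apply h₁.nz
  · have : ((1 / 2 : ℂ) + β * (⟨β⁻¹, z.im⟩ : ℂ)).re = 1 / 2 + β * β⁻¹ := by simp
    rw [this, mul_inv_cancel₀ hβ.ne']
    norm_num
  · rw [im1]
    exact (mul_pos hβ hz).ne'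

lemma iso1 (h₁ : HU N₁ χ₁ F₁ R₁ e₁ w₁) {β : ℝ} (hβ : 0 < β) {z : ℂ} (hz : 0 < z.im) :
    ∀ᶠ w in 𝓝 z, w ≠ z → F₁ (1 / 2 + β * w) ≠ 0 := by
  obtain ⟨φ, -, -, h3⟩ := local_quot (an1 h₁ (mul_pos hβ hz)) (an1 h₁ (mul_pos hβ hz))
    (ont1 h₁ hβ hz) le_rfl
  exact h3

theorem exists_DU (h₁ : HU N₁ χ₁ F₁ R₁ e₁ w₁) (h₂ : HU N₂ χ₂ F₂ R₂ e₂ w₂) {α β : ℝ} (δ : ℝ)
    (hα : 0 < α) (hβ : 0 < β) {t W : ℝ} (hpos : ∀ y : ℝ, |y - t| < W → 0 < y ∧ 0 < δ + α * y)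
    (hbad : ∀ z ∈ ExcZ F₁ F₂ α β δ, W ≤ |z.im - t|) :
    ∃ D : ℂ → ℂ, (∀ z : ℂ, |z.im - t| < W → AnalyticAt ℂ D z) ∧
      (∀ z : ℂ, |z.im - t| < W → F₂ (1 / 2 + δ * I + α * z) = D z * F₁ (1 / 2 + β * z)) := by
  set U : Set ℂ := {z : ℂ | |z.im - t| < W} with hU
  have hUo : IsOpen U := by
    have : Continuous fun z : ℂ => |z.im - t| := by fun_prop
    exact isOpen_lt this continuous_const
  obtain ⟨g, hg1, hg2⟩ := exists_quot (U := U)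
    (f := fun w => F₂ (1 / 2 + δ * I + α * w))
    (h := fun w => F₁ (1 / 2 + β * w)) hUo
    (fun z hz => an2 h₂ (hpos _ hz).2) (fun z hz => an1 h₁ (mul_pos hβ (hpos _ hz).1))
    (fun z hz => ont1 h₁ hβ (hpos _ hz).1) (by
      intro z hz
      by_contra hcon
      push Not at hcon
      obtain ⟨p1, p2⟩ := hpos _ hz
      have e1 : analyticOrderAt (fun w => F₁ (1 / 2 + β * w)) z =
          analyticOrderAt F₁ (1 / 2 + β * z) := by
        have hder : deriv (fun w : ℂ => 1 / 2 + β * w) z = β := by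
          have : HasDerivAt (fun w : ℂ => 1 / 2 + β * w) (β * 1) z :=
            ((hasDerivAt_id z).const_mul (β : ℂ)).const_add _
          rw [this.deriv, mul_one]
        have := analyticOrderAt_comp_of_deriv_ne_zero (f := F₁)
          (g := fun w : ℂ => 1 / 2 + β * w) (z₀ := z) (by fun_prop) (by
            rw [hder]
            exact_mod_cast hβ.ne')
        exact this
      have e2 : analyticOrderAt (fun w => F₂ (1 / 2 + δ * I + α * w))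
          z = analyticOrderAt F₂ (1 / 2 + δ * I + α * z) := by
        have hder : deriv (fun w : ℂ => 1 / 2 + δ * I + α * w) z = α := by
          have : HasDerivAt (fun w : ℂ => 1 / 2 + δ * I + α * w) (α * 1) z :=
            ((hasDerivAt_id z).const_mul (α : ℂ)).const_add _
          rw [this.deriv, mul_one]
        have := analyticOrderAt_comp_of_deriv_ne_zero (f := F₂)
          (g := fun w : ℂ => 1 / 2 + δ * I + α * w) (z₀ := z) (by fun_prop) (by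
            rw [hder]
            exact_mod_cast hα.ne')
        exact this
      rw [e1, e2] at hcon
      have h1 := hbad z (by
        refine ⟨?_, hcon⟩
        by_contra hne
        have han : AnalyticAt ℂ F₁ (1 / 2 + β * z) := h₁.an _ (by
          rw [im1]
          exact (mul_pos hβ p1).ne')
        rw [(han.analyticOrderAt_eq_zero).mpr hne] at hcon
        simp at hcon)
      exact absurd (show |z.im - t| < W from hz) (not_lt.mpr h1))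
  exact ⟨g, fun z hz => hg1 z hz, fun z hz => hg2 z hz⟩

/-- the functional equation of the continued quotient -/
theorem D_feU (h₁ : HU N₁ χ₁ F₁ R₁ e₁ w₁) (h₂ : HU N₂ χ₂ F₂ R₂ e₂ w₂) (α : ℝ) {β : ℝ} (δ : ℝ)
    (hβ : 0 < β) (D : ℂ → ℂ) {U : Set ℂ} (hU : IsOpen U)
    (hpos : ∀ z ∈ U, 0 < z.im ∧ 0 < δ + α * z.im)
    (hsym : ∀ z ∈ U, -(starRingEnd ℂ) z ∈ U)
    (hD : ∀ z ∈ U, AnalyticAt ℂ D z)
    (hDL : ∀ z ∈ U, F₂ (1 / 2 + δ * I + α * z) = D z * F₁ (1 / 2 + β * z)) :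
    ∀ z ∈ U, D z = GQ R₁ e₁ w₁ R₂ e₂ w₂ α β δ z * (starRingEnd ℂ) (D (-(starRingEnd ℂ) z)) := by
  have key : ∀ z ∈ U, F₁ (1 / 2 + β * z) ≠ 0 →
      D z = GQ R₁ e₁ w₁ R₂ e₂ w₂ α β δ z * (starRingEnd ℂ) (D (-(starRingEnd ℂ) z)) := by
    intro z hz hnz
    obtain ⟨p1, p2⟩ := hpos z hz
    have p1' : β * z.im ≠ 0 := (mul_pos hβ p1).ne'
    have e1 : D z = F₂ (1 / 2 + δ * I + α * z) / F₁ (1 / 2 + β * z) := by
      rw [hDL z hz, mul_div_cancel_right₀ _ hnz]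
    have hnz' : F₁ (1 / 2 + β * (-(starRingEnd ℂ) z)) ≠ 0 := by
      intro h0
      apply hnz
      have e2 : (1 : ℂ) - (starRingEnd ℂ) (1 / 2 + β * z) = 1 / 2 + β * (-(starRingEnd ℂ) z) := by
        simp only [map_add, map_div₀, map_one, map_ofNat, map_mul, conj_ofReal]
        ring
      rw [h₁.fe (1 / 2 + β * z) (by rw [im1]; exact p1'), e2, h0]
      simp
    have e3 : D (-(starRingEnd ℂ) z) = F₂ (1 / 2 + δ * I + α * (-(starRingEnd ℂ) z)) /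
        F₁ (1 / 2 + β * (-(starRingEnd ℂ) z)) := by
      rw [hDL _ (hsym z hz), mul_div_cancel_right₀ _ hnz']
    rw [e1, e3]
    exact quot_fe h₁.hR h₂.hR h₁.fe h₂.fe α β δ p1' p2.ne'
  intro z hz
  obtain ⟨p1, p2⟩ := hpos z hz
  have p1' : β * z.im ≠ 0 := (mul_pos hβ p1).ne'
  have hc1 : ContinuousAt D z := (hD z hz).continuousAt
  have hc2 : ContinuousAt (fun w => GQ R₁ e₁ w₁ R₂ e₂ w₂ α β δ w *
      (starRingEnd ℂ) (D (-(starRingEnd ℂ) w))) z := by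
    have e1 : ContinuousAt (GQ R₁ e₁ w₁ R₂ e₂ w₂ α β δ) z :=
      (GQ_analytic h₁.hR h₂.hR e₁ e₂ h₁.hw α β δ p1' p2.ne').continuousAt
    have e2 : ContinuousAt (fun w : ℂ => -(starRingEnd ℂ) w) z := by fun_prop
    have e3 : ContinuousAt D (-(starRingEnd ℂ) z) := (hD _ (hsym z hz)).continuousAt
    have e4 : ContinuousAt (fun w : ℂ => D (-(starRingEnd ℂ) w)) z :=
      ContinuousAt.comp (f := fun w : ℂ => -(starRingEnd ℂ) w) (g := D) e3 e2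
    have e5 : ContinuousAt (fun w : ℂ => (starRingEnd ℂ) (D (-(starRingEnd ℂ) w))) z :=
      (Complex.continuous_conj.continuousAt).comp e4
    exact e1.mul e5
  have hev : ∀ᶠ w in 𝓝[≠] z, D w = GQ R₁ e₁ w₁ R₂ e₂ w₂ α β δ w *
      (starRingEnd ℂ) (D (-(starRingEnd ℂ) w)) := by
    rw [eventually_nhdsWithin_iff]
    filter_upwards [iso1 h₁ hβ p1, hU.mem_nhds hz] with w h1 h2 h3
    exact key w h2 (h1 h3)
  have t1 : Tendsto D (𝓝[≠] z) (𝓝 (D z)) := hc1.tendsto.mono_left nhdsWithin_le_nhds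
  have t2 := hc2.tendsto.mono_left (nhdsWithin_le_nhds (a := z) (s := {z}ᶜ))
  exact tendsto_nhds_unique_of_eventuallyEq t1 t2 hev

end Pool.Agent.T9h53.AP
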